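import Pool.Agent.RKQ.Cls

/-!
The class of graphs generated from the empty graph by adding one vertex (with arbitrary
neighbours) and by well ordered sums; ranks.
-/

set_option autoImplicit false

open Cardinal Order

namespace Pool.Agent.RKR

universe u

/-- The sets `s` of vertices of `H` for which `H[s]` is obtained from the empty graph by iterating
two operations: adding one vertex `x`, with arbitrary neighbours, and well ordered sums: `s` is
partitioned into blocks `{w ∈ s | bl w = x}`, `x ∈ Th`, of the class, where `Th` is well ordered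
and every vertex `v` of `s` is joined to all (if `t v` holds) or to none (otherwise) of the
vertices of the later blocks. -/
inductive ClsF {W : Type u} (H : SimpleGraph W) : Set W → Prop
  | empty : ClsF H ∅
  | ins (x : W) (s : Set W) (hs : ClsF H s) : ClsF H (insert x s)
  | sum (s : Set W) (Th : Type u) (i1 : LinearOrder Th) (i2 : WellFoundedLT Th) (bl : W → Th)
      (t : W → Prop) (ht : ∀ v ∈ s, ∀ w ∈ s, bl v < bl w → (H.Adj v w ↔ t v))
      (hs : ∀ x, ClsF H {w | w ∈ s ∧ bl w = x}) : ClsF H s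

/-- The class with ranks. -/
def RkF {W : Type u} (H : SimpleGraph W) (o : Ordinal.{u}) (s : Set W) : Prop :=
  s = ∅ ∨ (∃ (x : W) (s' : Set W), s = insert x s' ∧ x ∉ s' ∧
    ∃ (o' : Ordinal.{u}) (_ : o' < o), RkF H o' s') ∨
  ∃ (Th : Type u) (_ : LinearOrder Th) (_ : WellFoundedLT Th) (bl : W → Th)
    (t : W → Prop), (∀ v ∈ s, ∀ w ∈ s, bl v < bl w → (H.Adj v w ↔ t v)) ∧
      ∀ x, ∃ (o' : Ordinal.{u}) (_ : o' < o), RkF H o' {w | w ∈ s ∧ bl w = x}
termination_by o
decreasing_by all_goals assumption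

theorem rkF_iff {W : Type u} (H : SimpleGraph W) (o : Ordinal.{u}) (s : Set W) : RkF H o s ↔
    (s = ∅ ∨ (∃ (x : W) (s' : Set W), s = insert x s' ∧ x ∉ s' ∧
      ∃ (o' : Ordinal.{u}) (_ : o' < o), RkF H o' s') ∨
    ∃ (Th : Type u) (_ : LinearOrder Th) (_ : WellFoundedLT Th) (bl : W → Th)
      (t : W → Prop), (∀ v ∈ s, ∀ w ∈ s, bl v < bl w → (H.Adj v w ↔ t v)) ∧
        ∀ x, ∃ (o' : Ordinal.{u}) (_ : o' < o), RkF H o' {w | w ∈ s ∧ bl w = x}) := by
  rw [RkF]

theorem exists_rkF {W : Type u} {H : SimpleGraph W} {s : Set W} (h : ClsF H s) :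
    ∃ o : Ordinal.{u}, RkF H o s := by
  induction h with
  | empty =>
    refine ⟨0, ?_⟩
    rw [rkF_iff]
    exact Or.inl rfl
  | ins x s hs ih =>
    obtain ⟨o, ho⟩ := ih
    by_cases hx : x ∈ s
    · rw [Set.insert_eq_of_mem hx]
      exact ⟨o, ho⟩
    · refine ⟨succ o, ?_⟩
      rw [rkF_iff]
      exact Or.inr (Or.inl ⟨x, s, rfl, hx, o, lt_succ o, ho⟩)
  | sum s Th i1 i2 bl t ht hs ih =>
    choose o ho using ih
    refine ⟨⨆ x, succ (o x), ?_⟩
    rw [rkF_iff]
    refine Or.inr (Or.inr ⟨Th, i1, i2, bl, t, ht, fun x => ⟨o x, ?_, ho x⟩⟩)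
    exact lt_of_lt_of_le (lt_succ (o x)) (Ordinal.le_iSup (fun x => succ (o x)) x)

theorem clsF_of_rkF {W : Type u} {H : SimpleGraph W} (o : Ordinal.{u}) :
    ∀ s : Set W, RkF H o s → ClsF H s := by
  induction o using WellFoundedLT.induction with
  | ind o ih =>
    intro s h
    rw [rkF_iff] at h
    rcases h with h | ⟨x, s', hs, -, o', ho', h'⟩ | ⟨Th, i1, i2, bl, t, ht, hs⟩
    · rw [h]
      exact ClsF.empty
    · rw [hs]
      exact ClsF.ins x s' (ih o' ho' s' h')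
    · refine ClsF.sum s Th i1 i2 bl t ht fun x => ?_
      obtain ⟨o', ho', h'⟩ := hs x
      exact ih o' ho' _ h'

/-- the least rank -/
noncomputable def rkf {W : Type u} (H : SimpleGraph W) (s : Set W) : Ordinal.{u} :=
  sInf {o | RkF H o s}

theorem rkF_rkf {W : Type u} {H : SimpleGraph W} {s : Set W} (h : ClsF H s) :
    RkF H (rkf H s) s := by
  obtain ⟨o, ho⟩ := exists_rkF h
  exact csInf_mem (s := {o | RkF H o s}) ⟨o, ho⟩

theorem rkf_le {W : Type u} {H : SimpleGraph W} {s : Set W} {o : Ordinal.{u}} (h : RkF H o s) :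
    rkf H s ≤ o := csInf_le' h

/-- `s` is obtained by adding one vertex to a set of smaller rank. -/
def IsIns {W : Type u} (H : SimpleGraph W) (s : Set W) : Prop :=
  ∃ q : W × Set W, s = insert q.1 q.2 ∧ q.1 ∉ q.2 ∧ ClsF H q.2 ∧ rkf H q.2 < rkf H s

theorem cases_rk {W : Type u} {H : SimpleGraph W} {s : Set W} (h : ClsF H s) (h0 : s ≠ ∅)
    (h1 : ¬ IsIns H s) : ∃ (Th : Type u) (_ : LinearOrder Th) (_ : WellFoundedLT Th) (bl : W → Th)
      (t : W → Prop), (∀ v ∈ s, ∀ w ∈ s, bl v < bl w → (H.Adj v w ↔ t v)) ∧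
        ∀ x, ClsF H {w | w ∈ s ∧ bl w = x} ∧ rkf H {w | w ∈ s ∧ bl w = x} < rkf H s := by
  have h2 := rkF_rkf h
  rw [rkF_iff] at h2
  rcases h2 with h2 | ⟨x, s', hs, hx, o', ho', h'⟩ | ⟨Th, i1, i2, bl, t, ht, hs⟩
  · exact absurd h2 h0
  · exact absurd ⟨(x, s'), hs, hx, clsF_of_rkF o' s' h', (rkf_le h').trans_lt ho'⟩ h1
  · refine ⟨Th, i1, i2, bl, t, ht, fun x => ?_⟩
    obtain ⟨o', ho', h'⟩ := hs x
    exact ⟨clsF_of_rkF o' _ h', (rkf_le h').trans_lt ho'⟩

end Pool.Agent.RKR
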