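import Pool.Agent.RKR.StateF
import Pool.Agent.RKQ.ListHom
import Pool.Agent.RKQ.Core2
import Pool.Agent.RKP.SysN

/-!
The homogeneous system for the closure of the empty graph under adding a vertex and well ordered
sums.
-/

set_option autoImplicit false

open Cardinal Order

namespace Pool.Agent.RKR

open Pool.Agent.RKH Pool.Agent.RKP Pool.Agent.RKQ

universe u

private theorem homR_fun {M Z Y : Type u} (hM : ℵ₀ ≤ #M) (hZ : #Z ≤ #M) (hY : #Y ≤ 2 ^ #M) :
    #(Z → Y) ≤ 2 ^ #M := by
  calc #(Z → Y) = #Y ^ #Z := by simp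
    _ ≤ (2 ^ #M) ^ #Z := power_le_power_right hY
    _ = 2 ^ (#M * #Z) := by rw [← power_mul]
    _ ≤ 2 ^ #M := power_le_power_left two_ne_zero (mul_le_of_le hM le_rfl hZ)

private theorem homR_mul {M X Y : Type u} (hM : ℵ₀ ≤ #M) (hX : #X ≤ 2 ^ #M) (hY : #Y ≤ 2 ^ #M) :
    #(X × Y) ≤ 2 ^ #M := by
  rw [mk_prod, lift_id, lift_id]
  exact mul_le_of_le (hM.trans (cantor _).le) hX hY

private theorem homR_list {M X : Type u} (hM : ℵ₀ ≤ #M) (hX : #X ≤ 2 ^ #M) :
    #(List X) ≤ 2 ^ #M :=
  (mk_list_le_max X).trans (max_le (hM.trans (cantor _).le) hX)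

private theorem homR_sta {M W V : Type u} (N : Set V) (hM : ℵ₀ ≤ #M) (hW : #W ≤ #M)
    (hN : #N ≤ 2 ^ #M) : #(Sta W N) ≤ 2 ^ #M := by
  refine homR_mul hM ?_ (homR_list hM (homR_mul hM (homR_fun hM hW ?_) ?_))
  · rw [mk_set]
    exact power_le_power_left two_ne_zero hW
  · rw [mk_option]
    exact add_le_of_le (hM.trans (cantor _).le) hN (one_le_aleph0.trans (hM.trans (cantor _).le))
  · have h1 : #(W → Bool) = 2 ^ #W := by simp
    rw [h1]
    exact power_le_power_left two_ne_zero hW

private theorem homR_imp {α β : Type*} {R R' : α → β → Prop} {l : List α} {u : List β}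
    (h : List.Forall₂ R l u) (hR : ∀ a b, b ∈ u → R a b → R' a b) : List.Forall₂ R' l u := by
  induction h with
  | nil => exact List.Forall₂.nil
  | cons h1 h2 ih =>
    refine List.Forall₂.cons (hR _ _ (by simp) h1) (ih fun a b hb h3 => hR a b ?_ h3)
    exact List.mem_cons_of_mem _ hb

private theorem homR_left {α β : Type*} {R : α → β → Prop} {l : List α} {u : List β}
    (h : List.Forall₂ R l u) : ∀ a ∈ l, ∃ b, R a b := by
  induction h with
  | nil => intro a ha; simp at ha
  | cons h1 h2 ih =>
    intro a ha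
    rw [List.mem_cons] at ha
    rcases ha with rfl | ha
    · exact ⟨_, h1⟩
    · exact ih a ha

theorem exists_homR (C K0 : Type u) : ∃ M0 : Type u, ∀ M : Type u, ℵ₀ ≤ #M → #C ≤ #M →
    #M0 ≤ #M → ∀ (V : Type u) (D : V → V → Option (Bool × C)) (N : Set V)
      (y : (succ ((2 : Cardinal.{u}) ^ #M)).ord.ToType → V), (∀ v w, D v w = D w v) →
      #N ≤ 2 ^ #M → SysP M D N y →
      ∃ cc : Bool → C, ∀ (H : SimpleGraph K0) (S : Set K0), ClsF H S →
        Real D cc H N S (fun _ _ => True) := by
  classical
  let ρm : Ordinal.{u} := ⨆ p : SimpleGraph K0 × Set K0, succ (rkf p.1 p.2)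
  obtain ⟨A, iA1, iA2, B, iB1, iB2, La, lev, lab, hcore⟩ := core2 C ρm
  obtain ⟨iL1, iL2⟩ := exists_wellFoundedLT (α := La)
  refine ⟨(B ×ₗ La) ⊕ (Set La ⊕ ((Bool → C) ⊕ K0)), fun M hM hC hM0 V D N y hD hN hsys => ?_⟩
  have hXM : #(B ×ₗ La) ≤ #M := (mk_le_of_injective (f := Sum.inl) Sum.inl_injective).trans hM0
  have hSLM : #(Set La) ≤ #M := (mk_le_of_injective (f := fun z => Sum.inr (Sum.inl z))
    (Sum.inr_injective.comp Sum.inl_injective)).trans hM0
  have hccM : #(Bool → C) ≤ #M := (mk_le_of_injective
    (f := fun z => Sum.inr (Sum.inr (Sum.inl z)))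
    (Sum.inr_injective.comp (Sum.inr_injective.comp Sum.inl_injective))).trans hM0
  have hKM : #K0 ≤ #M := (mk_le_of_injective
    (f := fun z => Sum.inr (Sum.inr (Sum.inr z)))
    (Sum.inr_injective.comp (Sum.inr_injective.comp Sum.inr_injective))).trans hM0
  have hLM : #La ≤ #M := by
    refine le_trans ?_ hSLM
    rw [mk_set]
    exact (cantor _).le
  have hP : ℵ₀ ≤ (2 : Cardinal.{u}) ^ #M := hM.trans (cantor _).le
  by_contra hcon
  have hcon' : ∀ cc : Bool → C, ∃ (H : SimpleGraph K0) (S : Set K0), ClsF H S ∧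
      ¬ Real D cc H N S (fun _ _ => True) := by
    intro cc
    by_contra h
    exact hcon ⟨cc, fun H S hHS => by_contra fun h4 => h ⟨H, S, hHS, h4⟩⟩
  choose H S hcls hbad using hcon'
  obtain ⟨v0, hv0⟩ : ∃ v0 : V, v0 ∈ N := by
    obtain ⟨z0, -⟩ := bdd_of_small hP (∅ : Set (succ ((2 : Cardinal.{u}) ^ #M)).ord.ToType)
      (by simp)
    obtain ⟨w, hw, -⟩ := hsys z0 ∅ (Set.empty_subset _) (by simp) ∅ (by simp) ∅
    exact ⟨w, hw⟩
  -- end homogeneity
  have hK : #((Bool → C) → Sta K0 N) ≤ 2 ^ #M := homR_fun hM hccM (homR_sta N hM hKM hN)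
  obtain ⟨z, x, hx, hxz⟩ := end_homog_list (R := M) (K := (Bool → C) → Sta K0 N) hM hK
    (fun S hS => bdd_of_small hP S hS) (fun zs s cc => StF D cc N y (H cc) (S cc) (s :: zs))
  -- the embedding
  have hemb : Nonempty ((B ×ₗ La) ≤i (succ #M).ord.ToType) := by
    rcases InitialSeg.total (· < · : (B ×ₗ La) → (B ×ₗ La) → Prop)
      (· < · : (succ #M).ord.ToType → (succ #M).ord.ToType → Prop) with h | h
    · exact ⟨h⟩
    · exfalso
      have h1 : #((succ #M).ord.ToType) ≤ #(B ×ₗ La) := mk_le_of_injective h.injective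
      have h2 : #((succ #M).ord.ToType) = succ #M := by simp
      rw [h2] at h1
      exact absurd (h1.trans hXM) (not_le.mpr (lt_succ _))
  obtain ⟨em⟩ := hemb
  let g : La → B ×ₗ La := fun a => toLex (lab a, a)
  have hg : Function.Injective g := fun a b h => (Prod.mk.inj (toLex.injective h)).2
  have hglt : ∀ a b, lab a < lab b → g a < g b := fun a b h =>
    Prod.Lex.toLex_lt_toLex.2 (Or.inl h)
  let e : La → (succ ((2 : Cardinal.{u}) ^ #M)).ord.ToType := fun a => x (em (g a))
  have he : Function.Injective e := fun a b h => hg (em.injective (hx.injective h))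
  have hhom : ∀ (cc : Bool → C) (l : List La) (c : La), (∀ a ∈ l, lab a < lab c) →
      StF D cc N y (H cc) (S cc) (e c :: l.map e) =
        StF D cc N y (H cc) (S cc) (z :: l.map e) := by
    intro cc l c h
    have h1 := hxz (l.map fun a => em (g a)) (em (g c)) (by
      intro r hr
      obtain ⟨a, ha, rfl⟩ := List.mem_map.1 hr
      exact em.strictMono (hglt a c (h a ha)))
    have h2 := congrFun h1 cc
    simp only [List.map_map] at h2
    exact h2
  -- the vertices
  let Fix1 : Set V := Set.range (fun q : ((Bool → C) × List La) × (ULift.{u} ℕ × K0) =>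
    (((StF D q.1.1 N y (H q.1.1) (S q.1.1) (q.1.2.map e)).2[q.2.1.down]?).bind
      (fun p => p.1 q.2.2)).elim v0 (fun a : N => (a : V)))
  let Fix2 : Set V := Set.range (fun q : ((Bool → C) × List La) × K0 =>
    (EmF D q.1.1 N y ⟨v0, hv0⟩ (H q.1.1) (S q.1.1) (q.1.2.map e) q.2 : V))
  let Fix : Set V := Fix1 ∪ Fix2
  have hFixN : Fix ⊆ N := by
    rintro _ (⟨q, rfl⟩ | ⟨q, rfl⟩)
    · dsimp only
      cases (((StF D q.1.1 N y (H q.1.1) (S q.1.1) (q.1.2.map e)).2[q.2.1.down]?).bind
        (fun p => p.1 q.2.2)) with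
      | none => exact hv0
      | some a => exact a.2
    · exact Subtype.coe_prop _
  have hFixM : #Fix ≤ #M := by
    refine (mk_union_le _ _).trans (add_le_of_le hM (mk_range_le.trans ?_)
      (mk_range_le.trans ?_))
    · rw [mk_prod, lift_id, lift_id, mk_prod, lift_id, lift_id, mk_prod, lift_id, lift_id]
      refine mul_le_of_le hM (mul_le_of_le hM hccM ((mk_list_le_max La).trans (max_le hM hLM)))
        (mul_le_of_le hM ?_ hKM)
      simpa using hM
    · rw [mk_prod, lift_id, lift_id, mk_prod, lift_id, lift_id]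
      exact mul_le_of_le hM (mul_le_of_le hM hccM ((mk_list_le_max La).trans (max_le hM hLM)))
        hKM
  have hFix : ∀ (cc : Bool → C) (l : List La), ∀ p ∈ (StF D cc N y (H cc) (S cc) (l.map e)).2,
      ∀ (w : K0) (a : N), p.1 w = some a → (a : V) ∈ Fix := by
    intro cc l p hp w a ha
    obtain ⟨n, hn⟩ := List.mem_iff_getElem?.1 hp
    refine Or.inl ⟨((cc, l), (⟨n⟩, w)), ?_⟩
    dsimp only
    rw [hn, Option.bind_some, ha]
    rfl
  have hFixE : ∀ (cc : Bool → C) (l : List La) (w : K0),
      (EmF D cc N y ⟨v0, hv0⟩ (H cc) (S cc) (l.map e) w : V) ∈ Fix := fun cc l w =>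
    Or.inr ⟨((cc, l), w), rfl⟩
  obtain ⟨v, hv⟩ := exists_rec (Th := La) (C := Set La → N) (fun a b => lev a < lev b)
    (InvImage.wf lev wellFounded_lt)
    (fun i gg c => ∀ M', (∀ i' (h : lev i' < lev i) M'', D (gg i' h M'') (c M') =
        D (gg i' h M'') (y (e i))) ∧ (∀ f ∈ Fix, D f (c M') = D f (y (e i))) ∧
      ∀ s : La, ∃ cl : C, D (c M') (y (e s)) = some (decide (s ∈ M'), cl)) (by
    intro i gg
    have h1 : ∀ M' : Set La, ∃ w : N, (∀ i' (h : lev i' < lev i) M'', D (gg i' h M'') w =
        D (gg i' h M'') (y (e i))) ∧ (∀ f ∈ Fix, D f w = D f (y (e i))) ∧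
        ∀ s : La, ∃ cl : C, D w (y (e s)) = some (decide (s ∈ M'), cl) := by
      intro M'
      obtain ⟨w, hwN, hw1, hw2⟩ := hsys (e i)
        (Set.range (fun p : {i' // lev i' < lev i} × Set La => (gg p.1.1 p.1.2 p.2 : V)) ∪ Fix)
        (by
          rintro a (⟨p, rfl⟩ | ha)
          · exact Subtype.coe_prop _
          · exact hFixN ha) (by
          refine (mk_union_le _ _).trans (add_le_of_le hM (mk_range_le.trans ?_) hFixM)
          rw [mk_prod, lift_id, lift_id]
          exact mul_le_of_le hM ((mk_subtype_le _).trans hLM) hSLM)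
        (Set.range e) (mk_range_le.trans hLM) (e '' M')
      refine ⟨⟨w, hwN⟩, ?_, ?_, ?_⟩
      · intro i' h M''
        exact hw1 _ (Or.inl ⟨(⟨i', h⟩, M''), rfl⟩)
      · intro f hf
        exact hw1 _ (Or.inr hf)
      · intro s
        obtain ⟨cl, hcl⟩ := hw2 (e s) ⟨s, rfl⟩
        refine ⟨cl, ?_⟩
        have h3 : decide (s ∈ M') = decide (e s ∈ e '' M') :=
          decide_eq_decide.2 he.mem_set_image.symm
        rw [h3]
        exact hcl
    choose w hw using h1
    exact ⟨w, hw⟩)
  choose c0 hc0 using fun i M' => (hv i M').2.2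
  obtain ⟨cc, hc⟩ := hcore c0
  have main : ∀ (ρ : Ordinal.{u}) (l : List La),
      LGood2 (fun c a => lev c < lev a ∧ lab a < lab c) c0 cc ρ l →
      rkf (H cc) (StF D cc N y (H cc) (S cc) (l.map e)).1 ≤ ρ →
      BadF D cc N y (H cc) (l.map e) (StF D cc N y (H cc) (S cc) (l.map e)) →
      (StF D cc N y (H cc) (S cc) (l.map e)).2.length = l.length →
      (∀ a : La, (∀ b ∈ l, lab b < lab a) →
        ∀ p ∈ (StF D cc N y (H cc) (S cc) (l.map e)).2, EFit D cc N p (y (e a))) → False := by
    intro ρ
    induction ρ using WellFoundedLT.induction with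
    | ind ρ ih =>
      intro l hl hrk hB hlen hfit
      by_cases h0 : (StF D cc N y (H cc) (S cc) (l.map e)).1 = ∅
      · -- the empty block
        refine hB.2 ⟨fun _ => ⟨v0, hv0⟩, ?_, ?_⟩
        · intro w hw
          rw [h0] at hw
          exact absurd hw (Set.notMem_empty w)
        · intro w hw
          rw [h0] at hw
          exact absurd hw (Set.notMem_empty w)
      by_cases hins : IsIns (H cc) (StF D cc N y (H cc) (S cc) (l.map e)).1
      · -- one added vertex
        obtain ⟨x', s', hs1, hs2, hs3, hs4, hs5⟩ := stF_ins D cc N y (H cc) (S cc) (l.map e) hins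
        have hρ : rkf (H cc) s' < ρ := hs4.trans_le hrk
        rw [lgood2_iff] at hl
        obtain ⟨c, ec, hf2, hl'⟩ := hl (rkf (H cc) s') hρ
          ((StF D cc N y (H cc) (S cc) (l.map e)).2.map (fun pe => pe.2 x')) (by
            rw [List.length_map, hlen])
        have hab : ∀ a ∈ l, lab a < lab c := by
          intro a ha
          obtain ⟨b', hb'⟩ := homR_left hf2 a ha
          exact hb'.1.2
        have hst : StF D cc N y (H cc) (S cc) ((c :: l).map e) =
            (s', insE N (H cc) x' :: (StF D cc N y (H cc) (S cc) (l.map e)).2) := by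
          rw [List.map_cons]
          exact hs5 (e c)
        have k2 : PzP D cc N y (l.map e) (StF D cc N y (H cc) (S cc) (l.map e)).2
            x' (v c ec) := by
          have h3 := hf2
          rw [Fits2, List.forall₂_map_right_iff] at h3
          rw [PzP, List.forall₂_map_left_iff]
          refine homR_imp h3 fun a' pe hpe h4 => ⟨?_, ?_⟩
          · obtain ⟨h5, h6, h7⟩ := h4
            rw [hc0 c ec a', h7]
            have h8 : decide (a' ∈ ec) = pe.2 x' := by
              by_cases h9 : a' ∈ ec
              · rw [h6.1 h9]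
                exact decide_eq_true h9
              · have h10 : ¬ (pe.2 x' = true) := fun h => h9 (h6.2 h)
                rw [Bool.not_eq_true] at h10
                rw [h10]
                exact decide_eq_false h9
            rw [h8]
          · intro w b hb
            rw [(hv c ec).2.1 _ (hFix cc l pe hpe w b hb)]
            exact hfit c hab pe hpe w b hb
        refine ih _ hρ (c :: l) hl' ?_ ?_ ?_ ?_
        · rw [hst]
        · rw [hst]
          refine ⟨hs3, fun hreal => ?_⟩
          have hspec := emF_spec D cc N y ⟨v0, hv0⟩ (H cc) (S cc) ((c :: l).map e) (by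
            rw [hst]
            exact hreal)
          have hEfix := hFixE cc (c :: l)
          rw [hst] at hspec
          obtain ⟨hE1, hE2⟩ := hspec
          generalize EmF D cc N y ⟨v0, hv0⟩ (H cc) (S cc) ((c :: l).map e) = E at hE1 hE2 hEfix
          have hE3 : ∀ w ∈ s', D (E w) (v c ec) =
              some (decide ((H cc).Adj w x'), cc (decide ((H cc).Adj w x'))) := by
            intro w hw
            rw [(hv c ec).2.1 _ (hEfix w)]
            have h1 := hE1 w hw
            rw [List.map_cons] at h1
            exact (List.forall₂_cons.1 h1).1.1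
          refine hB.2 ?_
          rw [hs1]
          refine ⟨fun w => if w = x' then v c ec else E w, ?_, ?_⟩
          · intro w hw
            by_cases hwx : w = x'
            · simp only [hwx, if_true]
              exact k2
            · simp only [hwx, if_false]
              have hw' : w ∈ s' := by
                rcases hw with hw | hw
                · exact absurd hw hwx
                · exact hw
              have h1 := hE1 w hw'
              rw [List.map_cons] at h1
              exact (List.forall₂_cons.1 h1).2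
          · intro w hw w' hw' hne
            have hm : ∀ w ∈ insert x' s', w ≠ x' → w ∈ s' := by
              intro w hw hwx
              rcases hw with hw | hw
              · exact absurd hw hwx
              · exact hw
            by_cases hwx : w = x'
            · have hwx' : w' ≠ x' := fun h => hne (hwx.trans h.symm)
              simp only [hwx, if_true, hwx', if_false]
              rw [hD, hE3 w' (hm w' hw' hwx')]
              have h5 : decide ((H cc).Adj w' x') = decide ((H cc).Adj x' w') :=
                decide_eq_decide.2 ((H cc).adj_comm w' x')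
              rw [h5]
            · by_cases hwx' : w' = x'
              · simp only [hwx, if_false, hwx', if_true]
                exact hE3 w (hm w hw hwx)
              · simp only [hwx, if_false, hwx']
                exact hE2 w (hm w hw hwx) w' (hm w' hw' hwx') hne
        · rw [hst, List.length_cons, hlen, List.length_cons]
        · intro a ha p'' hp''
          have ha' : ∀ b ∈ l, lab b < lab a := fun b hb => ha b (List.mem_cons_of_mem _ hb)
          rw [hst, List.mem_cons] at hp''
          rcases hp'' with rfl | hp''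
          · intro w b hb
            exact absurd hb (by simp [insE])
          · exact hfit a ha' p'' hp''
      · -- a sum
        obtain ⟨-, -, -, -, hp4⟩ := stF_cons D cc N y (H cc) (S cc) ⟨v0, hv0⟩ hD (l.map e) hB
          h0 hins z
        have hρ := hp4.trans_le hrk
        rw [lgood2_iff] at hl
        obtain ⟨c, ec, hf2, hl'⟩ := hl
          (rkf (H cc) (StF D cc N y (H cc) (S cc) (z :: l.map e)).1) hρ
          (List.replicate l.length false) (by simp)
        have hab : ∀ a ∈ l, lab a < lab c := by
          intro a ha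
          obtain ⟨b', hb'⟩ := homR_left hf2 a ha
          exact hb'.1.2
        have hs := hhom cc l c hab
        obtain ⟨p', hq1, hq2, hq3, hq4⟩ := stF_cons D cc N y (H cc) (S cc) ⟨v0, hv0⟩ hD
          (l.map e) hB h0 hins (e c)
        refine ih _ hρ (c :: l) hl' ?_ ?_ ?_ ?_
        · rw [List.map_cons, hs]
        · rw [List.map_cons]
          exact hq3
        · rw [List.map_cons, hq1, List.length_cons, hlen, List.length_cons]
        · intro a ha p'' hp''
          have ha' : ∀ b ∈ l, lab b < lab a := fun b hb => ha b (List.mem_cons_of_mem _ hb)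
          rw [List.map_cons, hq1, List.mem_cons] at hp''
          rcases hp'' with rfl | hp''
          · obtain ⟨p3, h31, h32, -⟩ := stF_cons D cc N y (H cc) (S cc) ⟨v0, hv0⟩ hD
              (l.map e) hB h0 hins (e a)
            rw [hhom cc l a ha', ← hs, hq1] at h31
            rw [(List.cons.inj h31).1]
            exact h32
          · exact hfit a ha' p'' hp''
  refine main (rkf (H cc) (S cc)) [] ?_ ?_ ?_ ?_ ?_
  · refine hc.mono ((Order.le_succ _).trans ?_)
    exact Ordinal.le_iSup (fun p : SimpleGraph K0 × Set K0 => succ (rkf p.1 p.2)) (H cc, S cc)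
  · exact le_rfl
  · refine ⟨hcls cc, fun h => hbad cc ?_⟩
    obtain ⟨E, -, hE⟩ := h
    exact ⟨E, fun _ _ => trivial, hE⟩
  · rfl
  · intro a _ p hp
    exact absurd hp (by simp [StF])

end Pool.Agent.RKR
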