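import Pool.Agent.RKR.ClsF

/-!
Every graph without an infinite path belongs to the class `ClsF`; closure properties.
-/

set_option autoImplicit false

namespace Pool.Agent.RKR

universe u

variable {W : Type u}

/-- `H` has an infinite path (a ray), not necessarily induced. -/
def HasRay (H : SimpleGraph W) : Prop :=
  ∃ r : ℕ → W, Function.Injective r ∧ ∀ n, H.Adj (r n) (r (n + 1))

/-- the adjacency inside of `S` -/
private def RS (H : SimpleGraph W) (S : Set W) (a b : W) : Prop := a ∈ S ∧ b ∈ S ∧ H.Adj a b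

/-- the component of `a` in `H[S]` -/
private def Comp (H : SimpleGraph W) (S : Set W) (a : W) : Set W :=
  {w | w ∈ S ∧ Relation.ReflTransGen (RS H S) a w}

private theorem RS_symm {H : SimpleGraph W} {S : Set W} {a b : W}
    (h : Relation.ReflTransGen (RS H S) a b) : Relation.ReflTransGen (RS H S) b a := by
  induction h with
  | refl => exact Relation.ReflTransGen.refl
  | tail _ h2 ih => exact Relation.ReflTransGen.head ⟨h2.2.1, h2.1, h2.2.2.symm⟩ ih

private theorem comp_eq {H : SimpleGraph W} {S : Set W} {a w : W}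
    (hw : Relation.ReflTransGen (RS H S) a w) : Comp H S w = Comp H S a := by
  ext u
  constructor
  · rintro ⟨h1, h2⟩
    exact ⟨h1, hw.trans h2⟩
  · rintro ⟨h1, h2⟩
    exact ⟨h1, (RS_symm hw).trans h2⟩

private theorem exists_comp {H : SimpleGraph W} {S : Set W} (h : ¬ ClsF H S) :
    ∃ a ∈ S, ¬ ClsF H (Comp H S a) := by
  by_contra hcon
  push Not at hcon
  obtain ⟨i1, i2⟩ := exists_wellFoundedLT (α := Set W)
  refine h (ClsF.sum S (Set W) i1 i2 (fun w => Comp H S w) (fun _ => False) ?_ ?_)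
  · intro v hv w hw hlt
    constructor
    · intro hadj
      have h1 : Comp H S w = Comp H S v := comp_eq (Relation.ReflTransGen.single ⟨hv, hw, hadj⟩)
      rw [h1] at hlt
      exact @lt_irrefl (Set W) i1.toPartialOrder.toPreorder _ hlt
    · exact fun h => h.elim
  · intro x
    by_cases hx : ∃ w ∈ S, Comp H S w = x
    · obtain ⟨w, hw, rfl⟩ := hx
      have h1 : {w' | w' ∈ S ∧ Comp H S w' = Comp H S w} = Comp H S w := by
        ext w'
        constructor
        · rintro ⟨h1, h2⟩
          rw [← h2]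
          exact ⟨h1, Relation.ReflTransGen.refl⟩
        · rintro ⟨h1, h2⟩
          exact ⟨h1, comp_eq h2⟩
      rw [h1]
      exact hcon w hw
    · have h1 : {w' | w' ∈ S ∧ Comp H S w' = x} = ∅ := by
        ext w'
        simp only [Set.mem_ofPred_eq, Set.mem_empty_iff_false, iff_false]
        rintro ⟨h1, h2⟩
        exact hx ⟨w', h1, h2⟩
      rw [h1]
      exact ClsF.empty

private theorem reach_tail {H : SimpleGraph W} {K : Set W} {v w : W}
    (h : Relation.ReflTransGen (RS H K) v w) (hne : w ≠ v) :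
    ∃ v', v' ≠ v ∧ v' ∈ K ∧ H.Adj v v' ∧ Relation.ReflTransGen (RS H (K \ {v})) v' w := by
  induction h with
  | refl => exact absurd rfl hne
  | @tail b c h1 h2 ih =>
    by_cases hb : b = v
    · subst hb
      exact ⟨c, hne, h2.2.1, h2.2.2, Relation.ReflTransGen.refl⟩
    · obtain ⟨v', h3, h4, h5, h6⟩ := ih hb
      exact ⟨v', h3, h4, h5, h6.tail ⟨⟨h2.1, hb⟩, ⟨h2.2.1, hne⟩, h2.2.2⟩⟩

private theorem comp_reach {H : SimpleGraph W} {S : Set W} {a w : W}
    (h : Relation.ReflTransGen (RS H S) a w) :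
    Relation.ReflTransGen (RS H (Comp H S a)) a w := by
  induction h with
  | refl => exact Relation.ReflTransGen.refl
  | @tail b c h1 h2 ih =>
    exact ih.tail ⟨⟨h2.1, h1⟩, ⟨h2.2.1, h1.tail h2⟩, h2.2.2⟩

private theorem ray_step {H : SimpleGraph W} {v : W} {K : Set W} (hK : ¬ ClsF H K) (hv : v ∈ K)
    (hr : ∀ w ∈ K, Relation.ReflTransGen (RS H K) v w) :
    ∃ (v' : W) (K' : Set W), ¬ ClsF H K' ∧ v' ∈ K' ∧
      (∀ w ∈ K', Relation.ReflTransGen (RS H K') v' w) ∧ H.Adj v v' ∧ K' ⊆ K \ {v} := by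
  have h1 : ¬ ClsF H (K \ {v}) := by
    intro h
    apply hK
    have h2 := ClsF.ins v _ h
    rwa [Set.insert_sdiff_singleton, Set.insert_eq_of_mem hv] at h2
  obtain ⟨w0, hw0, hbad⟩ := exists_comp h1
  obtain ⟨v', h3, h4, h5, h6⟩ := reach_tail (hr w0 hw0.1) hw0.2
  have h7 : v' ∈ K \ {v} := ⟨h4, h3⟩
  have h8 : Comp H (K \ {v}) w0 = Comp H (K \ {v}) v' := comp_eq h6
  rw [h8] at hbad
  exact ⟨v', Comp H (K \ {v}) v', hbad, ⟨h7, Relation.ReflTransGen.refl⟩,
    fun w hw => comp_reach hw.2, h5, fun w hw => hw.1⟩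

/-- A graph without an infinite path belongs to the class. -/
theorem clsF_of_rayless (H : SimpleGraph W) (h : ¬ HasRay H) : ClsF H Set.univ := by
  by_contra hcon
  obtain ⟨a, ha, hbad⟩ := exists_comp hcon
  let St : Type u := {p : W × Set W // ¬ ClsF H p.2 ∧ p.1 ∈ p.2 ∧
    ∀ w ∈ p.2, Relation.ReflTransGen (RS H p.2) p.1 w}
  have hstep : ∀ p : St, ∃ q : St, H.Adj p.1.1 q.1.1 ∧ q.1.2 ⊆ p.1.2 \ {p.1.1} := by
    rintro ⟨⟨v, K⟩, h1, h2, h3⟩
    obtain ⟨v', K', h4, h5, h6, h7, h8⟩ := ray_step h1 h2 h3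
    exact ⟨⟨(v', K'), h4, h5, h6⟩, h7, h8⟩
  choose nx hn1 hn2 using hstep
  let p0 : St := ⟨(a, Comp H Set.univ a), hbad, ⟨ha, Relation.ReflTransGen.refl⟩,
    fun w hw => comp_reach hw.2⟩
  let q : ℕ → St := fun n => nx^[n] p0
  have hq : ∀ n, q (n + 1) = nx (q n) := fun n => Function.iterate_succ_apply' nx n p0
  have hsub : ∀ m n, m < n → (q n).1.2 ⊆ (q m).1.2 \ {(q m).1.1} := by
    intro m n hmn
    induction n, hmn using Nat.le_induction with
    | base =>
      rw [hq m]
      exact hn2 _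
    | succ n hmn ih =>
      rw [hq n]
      exact ((hn2 (q n)).trans Set.sdiff_subset).trans ih
  refine h ⟨fun n => (q n).1.1, ?_, ?_⟩
  · intro m n hmn
    by_contra hne
    rcases lt_or_gt_of_ne hne with hlt | hlt
    · exact (hsub m n hlt (q n).2.2.1).2 hmn.symm
    · exact (hsub n m hlt (q m).2.2.1).2 hmn
  · intro n
    change H.Adj (q n).1.1 (q (n + 1)).1.1
    rw [hq n]
    exact hn1 _

/-- Only the adjacency inside of `s` matters. -/
theorem ClsF.congr {H H' : SimpleGraph W} {s : Set W} (h : ClsF H s)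
    (hH : ∀ v ∈ s, ∀ w ∈ s, (H.Adj v w ↔ H'.Adj v w)) : ClsF H' s := by
  induction h with
  | empty => exact ClsF.empty
  | ins x s _ ih =>
    exact ClsF.ins x s (ih fun v hv w hw => hH v (Or.inr hv) w (Or.inr hw))
  | sum s Th i1 i2 bl t ht _ ih =>
    exact ClsF.sum s Th i1 i2 bl t
      (fun v hv w hw hlt => (hH v hv w hw).symm.trans (ht v hv w hw hlt))
      fun x => ih x fun v hv w hw => hH v hv.1 w hw.1

/-- The class is closed under complements. -/
theorem ClsF.compl {H : SimpleGraph W} {s : Set W} (h : ClsF H s) : ClsF Hᶜ s := by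
  induction h with
  | empty => exact ClsF.empty
  | ins x s _ ih => exact ClsF.ins x s ih
  | sum s Th i1 i2 bl t ht _ ih =>
    refine ClsF.sum s Th i1 i2 bl (fun v => ¬ t v) (fun v hv w hw hlt => ?_) ih
    have hne : v ≠ w := fun h => lt_irrefl _ (h ▸ hlt)
    rw [SimpleGraph.compl_adj, ht v hv w hw hlt]
    exact ⟨fun h => h.2, fun h => ⟨hne, h⟩⟩

/-- The complement of a graph without an infinite path belongs to the class. -/
theorem clsF_of_compl_rayless (H : SimpleGraph W) (h : ¬ HasRay Hᶜ) : ClsF H Set.univ := by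
  have h1 := (clsF_of_rayless Hᶜ h).compl
  rwa [compl_compl] at h1

/-- The class is closed under induced subgraphs. -/
theorem ClsF.subset {H : SimpleGraph W} {s s' : Set W} (h : ClsF H s) (hs : s' ⊆ s) :
    ClsF H s' := by
  induction h generalizing s' with
  | empty =>
    rw [Set.subset_empty_iff.1 hs]
    exact ClsF.empty
  | ins x s _ ih =>
    have h1 : ClsF H (s' \ {x}) := ih fun w hw => (hs hw.1).resolve_left hw.2
    by_cases hx : x ∈ s'
    · have h2 := ClsF.ins x _ h1
      rwa [Set.insert_sdiff_singleton, Set.insert_eq_of_mem hx] at h2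
    · rwa [Set.sdiff_singleton_eq_self hx] at h1
  | sum s Th i1 i2 bl t ht _ ih =>
    exact ClsF.sum s' Th i1 i2 bl t (fun v hv w hw => ht v (hs hv) w (hs hw))
      fun x => ih x fun w hw => ⟨hs hw.1, hw.2⟩

/-- Finite sets belong to the class. -/
theorem clsF_finite {H : SimpleGraph W} {s : Set W} (hs : s.Finite) : ClsF H s := by
  induction s, hs using Set.Finite.induction_on with
  | empty => exact ClsF.empty
  | insert _ _ ih => exact ClsF.ins _ _ ih

/-- The class `Cls` of the theorem on iterated sums is contained in `ClsF`. -/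
theorem clsF_of_cls {H : SimpleGraph W} {s : Set W} (h : RKQ.Cls H s) : ClsF H s := by
  induction h with
  | fin s hs => exact clsF_finite hs
  | sum s Th i1 i2 bl t ht _ ih => exact ClsF.sum s Th i1 i2 bl t ht ih

/-- the class is invariant under embeddings -/
theorem ClsF.map {K : Type u} (i : W ↪ K) (H : SimpleGraph W) {s : Set W} (h : ClsF H s) :
    ClsF (H.map i) (i '' s) := by
  classical
  induction h with
  | empty =>
    rw [Set.image_empty]
    exact ClsF.empty
  | ins x s _ ih =>
    rw [Set.image_insert_eq]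
    exact ClsF.ins _ _ ih
  | sum s Th i1 i2 bl t ht hs ih =>
    by_cases hne : Nonempty Th
    · obtain ⟨d⟩ := hne
      refine ClsF.sum (i '' s) Th i1 i2 (Function.extend i bl (fun _ => d))
        (Function.extend i t (fun _ => False)) ?_ ?_
      · rintro _ ⟨v, hv, rfl⟩ _ ⟨w, hw, rfl⟩ hlt
        rw [i.injective.extend_apply, i.injective.extend_apply] at hlt
        rw [i.injective.extend_apply, SimpleGraph.map_adj_apply]
        exact ht v hv w hw hlt
      · intro x
        have h1 : {w | w ∈ i '' s ∧ Function.extend i bl (fun _ => d) w = x} =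
            i '' {w | w ∈ s ∧ bl w = x} := by
          ext w
          constructor
          · rintro ⟨⟨w, hw, rfl⟩, h2⟩
            rw [i.injective.extend_apply] at h2
            exact ⟨w, ⟨hw, h2⟩, rfl⟩
          · rintro ⟨w, ⟨hw, h2⟩, rfl⟩
            exact ⟨⟨w, hw, rfl⟩, by rw [i.injective.extend_apply]; exact h2⟩
        rw [h1]
        exact ih x
    · have h1 : s = ∅ := Set.eq_empty_of_forall_notMem fun w _ => hne ⟨bl w⟩
      rw [h1, Set.image_empty]
      exact ClsF.empty

end Pool.Agent.RKR
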