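import Pool.Agent.RKR.ClsF
import Pool.Agent.RKQ.State

/-!
The states: the current block and the trunk after a finite sequence of tops. A new top is either
the place of an added vertex, or the place of all later blocks of a sum.
-/

set_option autoImplicit false

open Cardinal Order

namespace Pool.Agent.RKR

open Pool.Agent.RKQ

universe u

section

variable {C V W T : Type u} (D : V → V → Option (Bool × C)) (cc : Bool → C) (N : Set V)
  (y : T → V)

/-- the current block cannot be realised -/
def BadF (H : SimpleGraph W) (zs : List T) (σ : Sta W N) : Prop :=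
  ClsF H σ.1 ∧ ¬ Real D cc H N σ.1 (PzP D cc N y zs σ.2)

/-- the next state, for a sum -/
def GoodF (H : SimpleGraph W) (zs : List T) (σ : Sta W N) (z : T) (σ' : Sta W N) : Prop :=
  ∃ p : Ent W N, σ'.2 = p :: σ.2 ∧ EFit D cc N p (y z) ∧ BadF D cc N y H (z :: zs) σ' ∧
    rkf H σ'.1 < rkf H σ.1

theorem exists_goodF (H : SimpleGraph W) (v0 : N) (hD : ∀ v w, D v w = D w v) (zs : List T)
    (σ : Sta W N) (h : BadF D cc N y H zs σ) (h0 : σ.1 ≠ ∅) (hi : ¬ IsIns H σ.1) (z : T) :
    ∃ σ', GoodF D cc N y H zs σ z σ' := by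
  classical
  obtain ⟨hc, hr⟩ := h
  obtain ⟨Th, i1, i2, bl, t, ht, hs⟩ := cases_rk hc h0 hi
  obtain ⟨x0, F, hF, hbad⟩ := exists_child D cc H N v0 hD σ.1 bl t ht (y z)
    (PzP D cc N y zs σ.2) hr
  refine ⟨({w | w ∈ σ.1 ∧ bl w = x0},
    (fun w => if w ∈ σ.1 ∧ bl w < x0 then some (F w) else none, fun w => decide (t w)) :: σ.2),
    (fun w => if w ∈ σ.1 ∧ bl w < x0 then some (F w) else none, fun w => decide (t w)),
    rfl, ?_, ⟨?_, ?_⟩, ?_⟩
  · intro w a hwa
    simp only at hwa ⊢
    by_cases hw : w ∈ σ.1 ∧ bl w < x0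
    · rw [if_pos hw] at hwa
      rw [← Option.some.inj hwa]
      exact hF w hw.1 hw.2
    · rw [if_neg hw] at hwa
      cases hwa
  · exact (hs x0).1
  · intro hreal
    apply hbad
    obtain ⟨E, hE1, hE2⟩ := hreal
    refine ⟨E, fun x hx => ?_, hE2⟩
    obtain ⟨⟨h2, h3⟩, h4⟩ := List.forall₂_cons.1 (hE1 x hx)
    refine ⟨h4, h2, fun w hw hwx => ?_⟩
    exact h3 w (F w) (if_pos ⟨hw, hwx⟩)
  · exact (hs x0).2

open Classical in
/-- the entry of an added vertex -/
noncomputable def insE (N : Set V) (H : SimpleGraph W) (x : W) : Ent W N :=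
  (fun _ => none, fun w => decide (H.Adj w x))

open Classical in
/-- the state after a list of tops -/
noncomputable def StF (H : SimpleGraph W) (S : Set W) : List T → Sta W N
  | [] => (S, [])
  | z :: zs => if h : IsIns H (StF H S zs).1 then
      (h.choose.2, insE N H h.choose.1 :: (StF H S zs).2)
    else if h : ∃ σ', GoodF D cc N y H zs (StF H S zs) z σ' then h.choose else StF H S zs

theorem stF_ins (H : SimpleGraph W) (S : Set W) (zs : List T)
    (h : IsIns H (StF D cc N y H S zs).1) : ∃ (x : W) (s' : Set W),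
      (StF D cc N y H S zs).1 = insert x s' ∧ x ∉ s' ∧ ClsF H s' ∧
        rkf H s' < rkf H (StF D cc N y H S zs).1 ∧ ∀ z,
        StF D cc N y H S (z :: zs) = (s', insE N H x :: (StF D cc N y H S zs).2) := by
  classical
  obtain ⟨h1, h2, h3, h4⟩ := h.choose_spec
  exact ⟨h.choose.1, h.choose.2, h1, h2, h3, h4, fun z => dif_pos h⟩

theorem stF_cons (H : SimpleGraph W) (S : Set W) (v0 : N) (hD : ∀ v w, D v w = D w v)
    (zs : List T) (h : BadF D cc N y H zs (StF D cc N y H S zs))
    (h0 : (StF D cc N y H S zs).1 ≠ ∅) (hi : ¬ IsIns H (StF D cc N y H S zs).1) (z : T) :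
    GoodF D cc N y H zs (StF D cc N y H S zs) z (StF D cc N y H S (z :: zs)) := by
  classical
  have h1 := exists_goodF D cc N y H v0 hD zs _ h h0 hi z
  have h2 : StF D cc N y H S (z :: zs) = h1.choose := (dif_neg hi).trans (dif_pos h1)
  rw [h2]
  exact h1.choose_spec

open Classical in
/-- a copy of the current block, if there is one -/
noncomputable def EmF (v0 : N) (H : SimpleGraph W) (S : Set W) (zs : List T) : W → N :=
  if h : Real D cc H N (StF D cc N y H S zs).1 (PzP D cc N y zs (StF D cc N y H S zs).2)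
  then h.choose else fun _ => v0

open Classical in
theorem emF_spec (v0 : N) (H : SimpleGraph W) (S : Set W) (zs : List T)
    (h : Real D cc H N (StF D cc N y H S zs).1 (PzP D cc N y zs (StF D cc N y H S zs).2)) :
    (∀ x ∈ (StF D cc N y H S zs).1, PzP D cc N y zs (StF D cc N y H S zs).2 x
      (EmF D cc N y v0 H S zs x)) ∧
    ∀ x ∈ (StF D cc N y H S zs).1, ∀ x' ∈ (StF D cc N y H S zs).1, x ≠ x' →
      D (EmF D cc N y v0 H S zs x) (EmF D cc N y v0 H S zs x') =
        some (decide (H.Adj x x'), cc (decide (H.Adj x x'))) := by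
  have h1 : EmF D cc N y v0 H S zs = h.choose := dif_pos h
  rw [h1]
  exact h.choose_spec

end

end Pool.Agent.RKR
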